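import Mathlib

set_option autoImplicit false

open Polynomial IsLocalRing

namespace Pool.Agent.Results.MP_f322fd_al.MixedCharCounterexample

/-- The homomorphism from integer polynomials to the field with two elements, sending X to 0. -/
noncomputable def ε : ℤ[X] →+* ZMod 2 := eval₂RingHom (Int.castRingHom (ZMod 2)) 0

/-- The ideal (2, X), as a kernel. -/
noncomputable def m : Ideal ℤ[X] := RingHom.ker ε

instance m_prime : m.IsPrime := RingHom.ker_isPrime ε

/-- The ring A: integer polynomials localised at (2, X). -/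
abbrev A : Type := Localization.AtPrime m

/-- The parameter x of A. -/
noncomputable def x : A := algebraMap ℤ[X] A X

noncomputable instance : IsRegularLocalRing A := inferInstance

lemma sqrt2_sq : Real.sqrt 2 ^ 2 = 2 := Real.sq_sqrt (by norm_num)

lemma indep (c d : ℤ) (h : (c : ℝ) + d * Real.sqrt 2 = 0) : c = 0 ∧ d = 0 := by
  have hd : d = 0 := by
    by_contra hd
    have h1 : Real.sqrt 2 = ((-c / d : ℚ) : ℝ) := by
      have : (d : ℝ) ≠ 0 := by exact_mod_cast hd
      push_cast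
      field_simp
      linarith
    exact irrational_sqrt_two ⟨_, h1.symm⟩
  subst hd
  refine ⟨?_, rfl⟩
  simpa using h

lemma modX (f : ℤ[X]) : ∃ (c d : ℤ) (q : ℤ[X]), f = q * (X ^ 2 - 8) + (C c + C d * X) := by
  have hm : (X ^ 2 - 8 : ℤ[X]).Monic := by
    have : (X ^ 2 - 8 : ℤ[X]) = X ^ 2 - C 8 := by simp
    rw [this]
    exact monic_X_pow_sub_C 8 (by norm_num)
  have hdeg : (X ^ 2 - 8 : ℤ[X]).degree = 2 := by
    have : (X ^ 2 - 8 : ℤ[X]) = X ^ 2 - C 8 := by simp
    rw [this]
    exact degree_X_pow_sub_C (by norm_num) 8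
  have h := modByMonic_add_div f (X ^ 2 - 8 : ℤ[X])
  have hlt := natDegree_modByMonic_lt f hm (by
    intro h1
    rw [h1] at hdeg
    simp at hdeg)
  have hnd : (X ^ 2 - 8 : ℤ[X]).natDegree = 2 := natDegree_eq_of_degree_eq_some hdeg
  rw [hnd] at hlt
  have hr2 := eq_X_add_C_of_natDegree_le_one (Nat.lt_succ_iff.1 hlt)
  refine ⟨(f %ₘ (X ^ 2 - 8 : ℤ[X])).coeff 0, (f %ₘ (X ^ 2 - 8 : ℤ[X])).coeff 1,
    f /ₘ (X ^ 2 - 8), ?_⟩
  conv_lhs => rw [← h, hr2]
  ring

/-- evaluation at twice the square root of 2 -/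
noncomputable def φ₀ : ℤ[X] →+* ℝ := eval₂RingHom (Int.castRingHom ℝ) (2 * Real.sqrt 2)

lemma φ₀_eval (c d : ℤ) (q : ℤ[X]) :
    φ₀ (q * (X ^ 2 - 8) + (C c + C d * X)) = c + (2 * d : ℤ) * Real.sqrt 2 := by
  have h := sqrt2_sq
  have h1 : ∀ a : ℤ, φ₀ (C a) = a := fun a => by simp [φ₀]
  have h2 : φ₀ X = 2 * Real.sqrt 2 := by simp [φ₀]
  rw [map_add, map_mul, map_sub, map_pow, map_add, map_mul, h1, h1, h2, map_ofNat, mul_pow, h]
  push_cast
  ring

lemma φ₀_zero {f : ℤ[X]} (h : φ₀ f = 0) : ∃ q, f = q * (X ^ 2 - 8) := by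
  obtain ⟨c, d, q, rfl⟩ := modX f
  rw [φ₀_eval] at h
  obtain ⟨h1, h2⟩ := indep _ _ h
  have h3 : d = 0 := by omega
  subst h1 h3
  exact ⟨q, by simp⟩

lemma ε_eq (f : ℤ[X]) : ε f = (f.coeff 0 : ℤ) := by
  simp [ε, eval₂_at_zero]

lemma φ₀_ne {f : ℤ[X]} (h : f ∉ m) : φ₀ f ≠ 0 := by
  intro h0
  obtain ⟨q, rfl⟩ := φ₀_zero h0
  apply h
  have h1 : ε (X ^ 2 - 8) = 0 := by
    rw [map_sub, map_pow, map_ofNat]
    have : ε X = 0 := by simp [ε]
    rw [this]
    decide
  rw [m, RingHom.mem_ker, map_mul, h1, mul_zero]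

lemma φ₀_unit (s : m.primeCompl) : IsUnit (φ₀ s) := isUnit_iff_ne_zero.2 (φ₀_ne s.2)

/-- the extension of φ₀ to A -/
noncomputable def φ : A →+* ℝ := IsLocalization.lift (M := m.primeCompl) (g := φ₀) φ₀_unit

lemma φ_alg (f : ℤ[X]) : φ (algebraMap ℤ[X] A f) = φ₀ f := IsLocalization.lift_eq _ f

lemma φ_x : φ x = 2 * Real.sqrt 2 := by rw [x, φ_alg]; simp [φ₀]

lemma ε_unit (s : m.primeCompl) : IsUnit (ε s) := isUnit_iff_ne_zero.2 (fun h => s.2 h)

/-- the residue map of A -/
noncomputable def εA : A →+* ZMod 2 := IsLocalization.lift (M := m.primeCompl) (g := ε) ε_unit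

lemma εA_alg (f : ℤ[X]) : εA (algebraMap ℤ[X] A f) = ε f := IsLocalization.lift_eq _ f

lemma εA_x : εA x = 0 := by rw [x, εA_alg]; simp [ε]

lemma exists_clear (a : A) : ∃ s : ℤ[X], s ∉ m ∧ ∃ f : ℤ[X],
    algebraMap ℤ[X] A s * a = algebraMap ℤ[X] A f := by
  obtain ⟨⟨f, s⟩, h⟩ := IsLocalization.surj m.primeCompl a
  exact ⟨s, s.2, f, by rw [mul_comm]; exact h⟩

lemma unit_alg {s : ℤ[X]} (hs : s ∉ m) : IsUnit (algebraMap ℤ[X] A s) :=
  IsLocalization.map_units A (⟨s, hs⟩ : m.primeCompl)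

lemma isUnit_A {a : A} (h : εA a ≠ 0) : IsUnit a := by
  obtain ⟨s, hs, f, hf⟩ := exists_clear a
  have h1 : εA (algebraMap ℤ[X] A f) ≠ 0 := by
    rw [← hf, map_mul]
    exact mul_ne_zero (by rw [εA_alg]; exact fun h => hs h) h
  rw [εA_alg] at h1
  have h2 : IsUnit (algebraMap ℤ[X] A f) := unit_alg (fun h => h1 h)
  rw [← hf] at h2
  exact isUnit_of_mul_isUnit_right h2

lemma maxA_iff (a : A) : a ∈ maximalIdeal A ↔ εA a = 0 := by
  constructor
  · intro h
    by_contra h1
    exact h (isUnit_A h1)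
  · intro h h1
    have := h1.map εA
    rw [h] at this
    exact not_isUnit_zero this

lemma maxA_span : maximalIdeal A = Ideal.span {2, x} := by
  apply le_antisymm
  · intro a ha
    rw [maxA_iff] at ha
    obtain ⟨s, hs, f, hf⟩ := exists_clear a
    have h1 : ε f = 0 := by
      rw [← εA_alg, ← hf, map_mul, ha, mul_zero]
    rw [ε_eq] at h1
    obtain ⟨c, hc⟩ := (ZMod.intCast_zmod_eq_zero_iff_dvd (f.coeff 0) 2).1 h1 |>.imp fun c h => h
    have h2 : f = X * f.divX + C (f.coeff 0) := (X_mul_divX_add f).symm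
    have h3 : algebraMap ℤ[X] A f ∈ Ideal.span {2, x} := by
      rw [h2, hc, map_add, map_mul]
      apply Ideal.add_mem
      · apply Ideal.mul_mem_right
        exact Ideal.subset_span (by simp [x])
      · rw [show (C (((2 : ℕ) : ℤ) * c) : ℤ[X]) = 2 * C c by simp, map_mul]
        apply Ideal.mul_mem_right
        rw [map_ofNat]
        exact Ideal.subset_span (by simp)
    rw [← hf] at h3
    exact (Ideal.unit_mul_mem_iff_mem _ (unit_alg hs)).1 h3
  · rw [Ideal.span_le]
    rintro a (rfl | rfl)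
    · show (2 : A) ∈ maximalIdeal A
      rw [maxA_iff, map_ofNat]; decide
    · show x ∈ maximalIdeal A
      rw [maxA_iff, εA_x]

/-- the prime ideal of A -/
noncomputable def p : Ideal A := Ideal.span {x ^ 2 - 8}

lemma p_eq_ker : p = RingHom.ker φ := by
  apply le_antisymm
  · rw [p, Ideal.span_le]
    rintro _ rfl
    rw [SetLike.mem_coe, RingHom.mem_ker, map_sub, map_pow, φ_x, map_ofNat, mul_pow, sqrt2_sq]
    norm_num
  · intro a ha
    rw [RingHom.mem_ker] at ha
    obtain ⟨s, hs, f, hf⟩ := exists_clear a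
    have h1 : φ₀ f = 0 := by rw [← φ_alg, ← hf, map_mul, ha, mul_zero]
    obtain ⟨q, hq⟩ := φ₀_zero h1
    have h3 : algebraMap ℤ[X] A f ∈ p := by
      rw [hq, map_mul, map_sub, map_pow, map_ofNat]
      exact Ideal.mul_mem_left _ _ (Ideal.subset_span rfl)
    rw [← hf] at h3
    exact (Ideal.unit_mul_mem_iff_mem _ (unit_alg hs)).1 h3

instance p_prime : p.IsPrime := by rw [p_eq_ker]; exact RingHom.ker_isPrime φ

lemma p_le_sq : p ≤ maximalIdeal A ^ 2 := by
  rw [p, Ideal.span_le]
  rintro _ rfl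
  have hx : x ∈ maximalIdeal A := by rw [maxA_iff, εA_x]
  have h2 : (2 : A) ∈ maximalIdeal A := by rw [maxA_iff, map_ofNat]; decide
  have h1 : (x ^ 2 - 8 : A) = x * x - 2 * (2 * 2) := by ring
  rw [SetLike.mem_coe, h1, sq]
  apply Ideal.sub_mem
  · exact Ideal.mul_mem_mul hx hx
  · exact Ideal.mul_mem_mul h2 (Ideal.mul_mem_left _ _ h2)

lemma dimA_ge : (2 : WithBot ℕ∞) ≤ ringKrullDim A := by
  rw [IsLocalization.AtPrime.ringKrullDim_eq_height m A]
  have hX : (Ideal.span {(X : ℤ[X])}).IsPrime :=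
    (Ideal.span_singleton_prime X_ne_zero).2 prime_X
  have h1 : (⊥ : Ideal ℤ[X]) < Ideal.span {(X : ℤ[X])} := by
    rw [bot_lt_iff_ne_bot]
    simp
  have h2 : Ideal.span {(X : ℤ[X])} < m := by
    apply lt_of_le_of_ne
    · rw [Ideal.span_le]
      rintro _ rfl
      show ε X = 0
      simp [ε]
    · intro h
      have h3 : (2 : ℤ[X]) ∈ m := by
        show ε 2 = 0
        rw [map_ofNat]; decide
      rw [← h, Ideal.mem_span_singleton, X_dvd_iff] at h3
      simp at h3
  have h3 := Ideal.height_add_one_le_of_lt_of_isPrime h1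
  have h4 := Ideal.height_add_one_le_of_lt_of_isPrime h2
  have h5 : (2 : ℕ∞) ≤ m.height := by
    calc (2 : ℕ∞) = 0 + 1 + 1 := by norm_num
      _ ≤ (⊥ : Ideal ℤ[X]).height + 1 + 1 := by gcongr; exact zero_le
      _ ≤ (Ideal.span {(X : ℤ[X])}).height + 1 := by gcongr
      _ ≤ m.height := h4
  exact WithBot.coe_le_coe.2 h5

lemma spanFinrank_A_le : (maximalIdeal A).spanFinrank ≤ 2 := by
  rw [maxA_span]
  refine (Submodule.spanFinrank_span_le_ncard_of_finite (Set.toFinite _)).trans ?_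
  exact (Set.ncard_insert_le _ _).trans (by simp)

lemma dimA : ringKrullDim A = 2 := by
  apply le_antisymm _ dimA_ge
  refine (ringKrullDim_le_spanFinrank_maximalIdeal A).trans ?_
  exact_mod_cast spanFinrank_A_le

lemma x_sq_ne : (x ^ 2 - 8 : A) ≠ 0 := by
  have h1 : (x ^ 2 - 8 : A) = algebraMap ℤ[X] A (X ^ 2 - 8) := by
    rw [map_sub, map_pow, map_ofNat, x]
  rw [h1]
  intro h
  have h2 := (IsLocalization.to_map_eq_zero_iff A
    (M := m.primeCompl) m.primeCompl_le_nonZeroDivisors).1 h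
  have h3 := congrArg (fun f => f.coeff 2) h2
  simp at h3

lemma not_regular : ¬ IsRegularLocalRing (A ⧸ p) := by
  intro hreg
  have : IsLocalRing (A ⧸ p) := hreg.toIsLocalRing
  have h1 := (isRegularLocalRing_iff (A ⧸ p)).1 hreg
  have hmem : (x ^ 2 - 8 : A) ∈ maximalIdeal A := by
    have := p_le_sq (Ideal.subset_span rfl : (x ^ 2 - 8 : A) ∈ p)
    exact Ideal.pow_le_self two_ne_zero this
  have h2 : ringKrullDim (A ⧸ p) + 1 = ringKrullDim A :=
    ringKrullDim_quotient_span_singleton_succ_eq_ringKrullDim_of_mem_nonZeroDivisors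
      (mem_nonZeroDivisors_of_ne_zero x_sq_ne) hmem
  rw [dimA, ← h1] at h2
  have h3 : (maximalIdeal (A ⧸ p)).spanFinrank = 1 := by
    have : ((maximalIdeal (A ⧸ p)).spanFinrank : WithBot ℕ∞) + 1 = 1 + 1 := by
      rw [h2]; norm_num
    have h4 : (((maximalIdeal (A ⧸ p)).spanFinrank + 1 : ℕ) : WithBot ℕ∞) = ((2 : ℕ) : WithBot ℕ∞) := by
      push_cast
      rw [this]; norm_num
    have h5 : (maximalIdeal (A ⧸ p)).spanFinrank + 1 = 2 := by exact_mod_cast h4
    omega
  have hfg : (maximalIdeal (A ⧸ p)).FG := (isNoetherianRing_iff_ideal_fg _).1 inferInstance _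
  have h4 := Submodule.FG.generators_ncard hfg
  rw [h3, Set.ncard_eq_one] at h4
  obtain ⟨tb, htb⟩ := h4
  have h5 : Ideal.span {tb} = maximalIdeal (A ⧸ p) := by
    rw [← htb]
    exact (maximalIdeal (A ⧸ p)).span_generators
  obtain ⟨t, rfl⟩ := Ideal.Quotient.mk_surjective tb
  have h6 : maximalIdeal A ≤ Ideal.span {t} ⊔ maximalIdeal A • maximalIdeal A := by
    intro a ha
    have hab : Ideal.Quotient.mk p a ∈ maximalIdeal (A ⧸ p) := by
      intro hu
      have hle : ∀ b ∈ p, εA b = 0 := fun b hb =>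
        (maxA_iff b).1 (Ideal.pow_le_self two_ne_zero (p_le_sq hb))
      have h9 := hu.map (Ideal.Quotient.lift p εA hle)
      rw [Ideal.Quotient.lift_mk, (maxA_iff a).1 ha] at h9
      exact not_isUnit_zero h9
    rw [← h5] at hab
    obtain ⟨cb, hcb⟩ := Ideal.mem_span_singleton'.1 hab
    obtain ⟨c, rfl⟩ := Ideal.Quotient.mk_surjective cb
    rw [← map_mul, eq_comm, Ideal.Quotient.eq] at hcb
    have h7 := p_le_sq hcb
    have h8 : a = c * t + (a - c * t) := by ring
    rw [h8]
    apply Submodule.add_mem_sup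
    · exact Ideal.mul_mem_left _ _ (Ideal.subset_span rfl)
    · rwa [smul_eq_mul, ← sq]
  have h7 : maximalIdeal A ≤ Ideal.span {t} :=
    Submodule.le_of_le_smul_of_le_jacobson_bot ((isNoetherianRing_iff_ideal_fg _).1 inferInstance _)
      (by rw [IsLocalRing.jacobson_eq_maximalIdeal ⊥ bot_ne_top]) h6
  have h8 : Ideal.span {t} = maximalIdeal A := by
    apply le_antisymm _ h7
    rw [Ideal.span_singleton_le_iff_mem, maxA_iff]
    by_contra h9
    have h10 : IsUnit (Ideal.Quotient.mk p t) := (isUnit_A h9).map _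
    have h11 : Ideal.Quotient.mk p t ∈ maximalIdeal (A ⧸ p) := by
      rw [← h5]; exact Ideal.subset_span rfl
    exact h11 h10
  have h9 : (maximalIdeal A).spanFinrank ≤ 1 := by
    rw [← h8]
    refine (Submodule.spanFinrank_span_le_ncard_of_finite (Set.finite_singleton _)).trans ?_
    simp
  have h10 := (isRegularLocalRing_iff A).1 inferInstance
  rw [dimA] at h10
  have h11 : (maximalIdeal A).spanFinrank = 2 := by exact_mod_cast h10
  omega

/-- the defining polynomial of B over A -/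
noncomputable def Q : A[X] := X ^ 2 - C x * X + C 2

lemma Q_monic : Q.Monic := by
  unfold Q
  monicity!

lemma Q_natDegree : Q.natDegree = 2 := by
  unfold Q
  compute_degree!

/-- The ring B: A with a root z of the polynomial T^2 - x T + 2 adjoined. -/
abbrev B : Type := AdjoinRoot Q

/-- the root -/
noncomputable def z : B := AdjoinRoot.root Q

/-- the image of x in B -/
noncomputable def xB : B := algebraMap A B x

lemma z_eq : z ^ 2 - xB * z + 2 = 0 := by
  have h : (AdjoinRoot.mk Q) (X ^ 2 - C x * X + C 2) = 0 := AdjoinRoot.mk_self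
  have h2 : (AdjoinRoot.mk Q) (X ^ 2 - C x * X + C 2) = z ^ 2 - xB * z + 2 := by
    rw [map_add, map_sub, map_mul, map_pow, AdjoinRoot.mk_X, AdjoinRoot.mk_C, AdjoinRoot.mk_C,
      map_ofNat]
    rfl
  rw [← h2, h]

instance : Module.Finite A B := Q_monic.finite_adjoinRoot

instance : Module.Free A B := Q_monic.free_adjoinRoot

lemma inj : Function.Injective (algebraMap A B) :=
  AdjoinRoot.of.injective_of_degree_ne_zero (by
    rw [Polynomial.degree_eq_natDegree Q_monic.ne_zero, Q_natDegree]; norm_num)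

instance : IsNoetherianRing B := IsNoetherianRing.of_finite A B

lemma repr_B (b : B) : ∃ a₀ a₁ : A, b = algebraMap A B a₀ + algebraMap A B a₁ * z := by
  obtain ⟨f, rfl⟩ := AdjoinRoot.mk_surjective b
  have h := modByMonic_add_div f Q
  have hlt := natDegree_modByMonic_lt f Q_monic (by
    intro h1
    have := Q_natDegree
    rw [h1] at this
    simp at this)
  rw [Q_natDegree] at hlt
  have hr2 := eq_X_add_C_of_natDegree_le_one (Nat.lt_succ_iff.1 hlt)
  refine ⟨(f %ₘ Q).coeff 0, (f %ₘ Q).coeff 1, ?_⟩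
  conv_lhs => rw [← h, hr2]
  rw [map_add, map_add, map_mul, map_mul, AdjoinRoot.mk_self, zero_mul, add_zero,
    AdjoinRoot.mk_X, AdjoinRoot.mk_C, AdjoinRoot.mk_C, add_comm]
  rfl

/-- the residue map of B -/
noncomputable def εB : B →+* ZMod 2 := AdjoinRoot.lift εA 0 (by
  unfold Q
  simp only [eval₂_add, eval₂_sub, eval₂_mul, eval₂_pow, eval₂_X, eval₂_C, εA_x]
  rw [map_ofNat]
  decide)

lemma εB_alg (a : A) : εB (algebraMap A B a) = εA a := AdjoinRoot.lift_of _
lemma εB_z : εB z = 0 := AdjoinRoot.lift_root _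

/-- the map of B to the reals -/
noncomputable def ψ : B →+* ℝ := AdjoinRoot.lift φ (Real.sqrt 2) (by
  unfold Q
  simp only [eval₂_add, eval₂_sub, eval₂_mul, eval₂_pow, eval₂_X, eval₂_C, φ_x]
  rw [map_ofNat]
  have := sqrt2_sq
  nlinarith)

lemma ψ_alg (a : A) : ψ (algebraMap A B a) = φ a := AdjoinRoot.lift_of _
lemma ψ_z : ψ z = Real.sqrt 2 := AdjoinRoot.lift_root _

/-- the parameter g of B -/
noncomputable def g : B := 2 * z - xB

lemma g_sq : g ^ 2 = xB ^ 2 - 8 := by
  have := z_eq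
  unfold g
  linear_combination 4 * this

lemma ker_ψ : RingHom.ker ψ = Ideal.span {g} := by
  apply le_antisymm
  · intro b hb
    rw [RingHom.mem_ker] at hb
    obtain ⟨a₀, a₁, rfl⟩ := repr_B b
    obtain ⟨s₀, hs₀, f₀, hf₀⟩ := exists_clear a₀
    obtain ⟨s₁, hs₁, f₁, hf₁⟩ := exists_clear a₁
    have hu : IsUnit (algebraMap A B (algebraMap ℤ[X] A s₀ * algebraMap ℤ[X] A s₁)) :=
      ((unit_alg hs₀).mul (unit_alg hs₁)).map _
    rw [← Ideal.unit_mul_mem_iff_mem _ hu]
    have e : algebraMap A B (algebraMap ℤ[X] A s₀ * algebraMap ℤ[X] A s₁) *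
        (algebraMap A B a₀ + algebraMap A B a₁ * z) =
        algebraMap A B (algebraMap ℤ[X] A (s₁ * f₀)) +
          algebraMap A B (algebraMap ℤ[X] A (s₀ * f₁)) * z := by
      rw [map_mul (algebraMap ℤ[X] A), map_mul (algebraMap ℤ[X] A), ← hf₀, ← hf₁]
      simp only [map_mul]
      ring
    have h0 : ψ (algebraMap A B (algebraMap ℤ[X] A (s₁ * f₀)) +
          algebraMap A B (algebraMap ℤ[X] A (s₀ * f₁)) * z) = 0 := by
      rw [← e, map_mul, hb, mul_zero]
    rw [e]
    generalize s₁ * f₀ = F₀ at h0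
    generalize s₀ * f₁ = F₁ at h0
    obtain ⟨c₀, d₀, q₀, rfl⟩ := modX F₀
    obtain ⟨c₁, d₁, q₁, rfl⟩ := modX F₁
    rw [map_add, map_mul, ψ_alg, ψ_alg, φ_alg, φ_alg, ψ_z, φ₀_eval, φ₀_eval] at h0
    have h1 : ((c₀ + 4 * d₁ : ℤ) : ℝ) + (2 * d₀ + c₁ : ℤ) * Real.sqrt 2 = 0 := by
      have := sqrt2_sq
      push_cast at h0 ⊢
      linear_combination h0 - 2 * (d₁ : ℝ) * this
    obtain ⟨h2, h3⟩ := indep _ _ h1
    have h4 : c₀ = -4 * d₁ := by omega
    have h5 : c₁ = -2 * d₀ := by omega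
    subst h4 h5
    have h6 : algebraMap A B (algebraMap ℤ[X] A (q₀ * (X ^ 2 - 8) + (C (-4 * d₁) + C d₀ * X))) +
        algebraMap A B (algebraMap ℤ[X] A (q₁ * (X ^ 2 - 8) + (C (-2 * d₀) + C d₁ * X))) * z =
        ((algebraMap A B (algebraMap ℤ[X] A q₀) + algebraMap A B (algebraMap ℤ[X] A q₁) * z) * g
          + (-(d₀ : B) + d₁ * z)) * g := by
      have hx : algebraMap A B (algebraMap ℤ[X] A X) = xB := rfl
      have hc : ∀ k : ℤ, algebraMap A B (algebraMap ℤ[X] A (C k)) = (k : B) := by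
        intro k
        simp
      simp only [map_add, map_mul, map_sub, map_pow, hx, hc, map_ofNat]
      have h7 := g_sq
      have h8 := z_eq
      push_cast
      unfold g at h7 ⊢
      linear_combination (-(algebraMap A B (algebraMap ℤ[X] A q₀)) -
        (algebraMap A B (algebraMap ℤ[X] A q₁)) * z) * h7 - 2 * (d₁ : B) * h8
    rw [h6]
    exact Ideal.mul_mem_left _ _ (Ideal.subset_span rfl)
  · rw [Ideal.span_singleton_le_iff_mem, RingHom.mem_ker]
    unfold g xB
    rw [map_sub, map_mul, ψ_alg, φ_x, ψ_z, map_ofNat, sub_self]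

lemma isUnit_B {b : B} (h : εB b ≠ 0) : IsUnit b := by
  obtain ⟨a₀, a₁, rfl⟩ := repr_B b
  rw [map_add, map_mul, εB_z, mul_zero, add_zero, εB_alg] at h
  have hN : IsUnit (a₀ ^ 2 + a₀ * a₁ * x + 2 * a₁ ^ 2) := by
    apply isUnit_A
    simp only [map_add, map_mul, map_pow, εA_x, mul_zero, add_zero, map_ofNat]
    rw [show (2 : ZMod 2) = 0 from rfl, zero_mul, add_zero]
    exact pow_ne_zero 2 h
  have h1 := hN.map (algebraMap A B)
  have h2 : algebraMap A B (a₀ ^ 2 + a₀ * a₁ * x + 2 * a₁ ^ 2) =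
      (algebraMap A B a₀ + algebraMap A B a₁ * z) *
        (algebraMap A B a₀ + algebraMap A B a₁ * (xB - z)) := by
    simp only [map_add, map_mul, map_pow, map_ofNat]
    have h3 : algebraMap A B x = xB := rfl
    rw [h3]
    linear_combination (algebraMap A B a₁) ^ 2 * z_eq
  rw [h2] at h1
  exact isUnit_of_mul_isUnit_left h1

instance : Nontrivial B := inj.nontrivial

instance : IsLocalRing B := by
  apply IsLocalRing.of_isUnit_or_isUnit_one_sub_self
  intro b
  by_cases h : εB b = 0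
  · right
    apply isUnit_B
    rw [map_sub, map_one, h, sub_zero]
    exact one_ne_zero
  · left
    exact isUnit_B h

lemma maxB_iff (b : B) : b ∈ maximalIdeal B ↔ εB b = 0 := by
  constructor
  · intro h
    by_contra h1
    exact h (isUnit_B h1)
  · intro h h1
    have := h1.map εB
    rw [h] at this
    exact not_isUnit_zero this

lemma maxB_span : maximalIdeal B = Ideal.span {xB, z} := by
  apply le_antisymm
  · intro b hb
    rw [maxB_iff] at hb
    obtain ⟨a₀, a₁, rfl⟩ := repr_B b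
    rw [map_add, map_mul, εB_z, mul_zero, add_zero, εB_alg] at hb
    have h1 : a₀ ∈ Ideal.span {2, x} := by rw [← maxA_span, maxA_iff]; exact hb
    obtain ⟨c, d, hcd⟩ := Ideal.mem_span_pair.1 h1
    have h2 : algebraMap A B a₀ + algebraMap A B a₁ * z =
        algebraMap A B d * xB + (algebraMap A B c * (xB - z) + algebraMap A B a₁) * z := by
      rw [← hcd]
      simp only [map_add, map_mul, map_ofNat]
      have h3 : algebraMap A B x = xB := rfl
      rw [h3]
      linear_combination (algebraMap A B c) * z_eq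
    rw [h2]
    exact Ideal.mem_span_pair.2 ⟨_, _, rfl⟩
  · rw [Ideal.span_le]
    rintro b (rfl | rfl)
    · show xB ∈ maximalIdeal B
      rw [maxB_iff]
      exact (εB_alg x).trans εA_x
    · show z ∈ maximalIdeal B
      rw [maxB_iff, εB_z]

instance gprime : (Ideal.span {g}).IsPrime := by
  rw [← ker_ψ]; exact RingHom.ker_isPrime ψ

lemma g_nzd : g ∈ nonZeroDivisors B := by
  have h1 := Module.Flat.isSMulRegular_of_nonZeroDivisors (M := B)
    (mem_nonZeroDivisors_of_ne_zero x_sq_ne)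
  rw [mem_nonZeroDivisors_iff_right]
  intro b hb
  apply h1
  simp only [smul_zero]
  rw [Algebra.smul_def, map_sub, map_pow, map_ofNat]
  have h3 : algebraMap A B x = xB := rfl
  rw [h3, ← g_sq]
  have : g ^ 2 * b = g * (b * g) := by ring
  rw [this, hb, mul_zero]

lemma g_mem : g ∈ maximalIdeal B := by
  rw [maxB_iff]
  unfold g
  rw [map_sub, map_mul, εB_z, mul_zero, zero_sub, neg_eq_zero]
  exact (εB_alg x).trans εA_x

instance : IsLocalRing (B ⧸ Ideal.span {g}) :=
  IsLocalRing.of_surjective' (Ideal.Quotient.mk _) Ideal.Quotient.mk_surjective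

lemma lift_zero : ∀ b ∈ Ideal.span {g}, εB b = 0 := by
  intro b hb
  obtain ⟨c, rfl⟩ := Ideal.mem_span_singleton'.1 hb
  rw [map_mul, (maxB_iff g).1 g_mem, mul_zero]

lemma maxQ_eq : maximalIdeal (B ⧸ Ideal.span {g}) =
    Ideal.span {Ideal.Quotient.mk (Ideal.span {g}) z} := by
  apply le_antisymm
  · intro bb hb
    obtain ⟨b, rfl⟩ := Ideal.Quotient.mk_surjective bb
    have h1 : b ∈ maximalIdeal B := by
      intro hu
      exact hb (hu.map _)
    rw [maxB_span] at h1
    obtain ⟨c, d, rfl⟩ := Ideal.mem_span_pair.1 h1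
    have h2 : Ideal.Quotient.mk (Ideal.span {g}) (c * xB + d * z) =
        Ideal.Quotient.mk (Ideal.span {g}) ((2 * c + d) * z) := by
      rw [Ideal.Quotient.eq]
      have h3 : c * xB + d * z - (2 * c + d) * z = (-c) * g := by
        unfold g; ring
      rw [h3]
      exact Ideal.mul_mem_left _ _ (Ideal.subset_span rfl)
    rw [h2, map_mul]
    exact Ideal.mul_mem_left _ _ (Ideal.subset_span rfl)
  · rw [Ideal.span_singleton_le_iff_mem]
    intro hu
    have h1 := hu.map (Ideal.Quotient.lift (Ideal.span {g}) εB lift_zero)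
    rw [Ideal.Quotient.lift_mk, εB_z] at h1
    exact not_isUnit_zero h1

lemma Q_dvr : IsPrincipalIdealRing (B ⧸ Ideal.span {g}) := by
  have h1 : (maximalIdeal (B ⧸ Ideal.span {g})).IsPrincipal := by
    rw [maxQ_eq]
    exact ⟨_, rfl⟩
  exact ((tfae_of_isNoetherianRing_of_isLocalRing_of_isDomain
    (R := B ⧸ Ideal.span {g})).out 4 0).1 h1

instance reg_quot : IsRegularLocalRing (B ⧸ Ideal.span {g}) := by
  have := Q_dvr
  infer_instance

lemma z_ne : Ideal.Quotient.mk (Ideal.span {g}) z ≠ 0 := by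
  intro h
  rw [Ideal.Quotient.eq_zero_iff_mem, ← ker_ψ, RingHom.mem_ker, ψ_z] at h
  have := sqrt2_sq
  rw [h] at this
  norm_num at this

lemma dimQ : ringKrullDim (B ⧸ Ideal.span {g}) = 1 := by
  have := Q_dvr
  apply IsPrincipalIdealRing.ringKrullDim_eq_one
  rw [isField_iff_maximalIdeal_eq, maxQ_eq, Ideal.span_singleton_eq_bot]
  exact z_ne

lemma dimB : ringKrullDim B = 2 := by
  rw [← ringKrullDim_quotient_span_singleton_succ_eq_ringKrullDim_of_mem_nonZeroDivisors
    g_nzd g_mem, dimQ]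
  norm_num

instance reg_B : IsRegularLocalRing B := by
  apply IsRegularLocalRing.of_spanFinrank_maximalIdeal_le
  rw [dimB, maxB_span]
  have : (Ideal.span {xB, z}).spanFinrank ≤ 2 := by
    refine (Submodule.spanFinrank_span_le_ncard_of_finite (Set.toFinite _)).trans ?_
    exact (Set.ncard_insert_le _ _).trans (by simp)
  exact_mod_cast this

lemma rad_eq : (p.map (algebraMap A B)).radical = Ideal.span {g} := by
  have h1 : p.map (algebraMap A B) = Ideal.span {g} ^ 2 := by
    rw [p, Ideal.map_span, Set.image_singleton, Ideal.span_singleton_pow, g_sq, map_sub, map_pow,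
      map_ofNat]
    rfl
  rw [h1, Ideal.radical_pow _ two_ne_zero, gprime.radical]

instance : CharZero A := by
  have : Function.Injective (algebraMap ℤ[X] A) :=
    IsLocalization.injective A m.primeCompl_le_nonZeroDivisors
  exact charZero_of_injective_algebraMap this

instance : CharZero B := charZero_of_injective_algebraMap inj

/-- There is a finite injective homomorphism of regular local rings of characteristic zero and a
prime p of the source such that B modulo the radical of pB is regular while A modulo p is not. -/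
theorem result : ∃ (A B : Type) (_ : CommRing A) (_ : CommRing B) (_ : Algebra A B),
    IsRegularLocalRing A ∧ IsRegularLocalRing B ∧ CharZero A ∧ CharZero B ∧
    Function.Injective (algebraMap A B) ∧ Module.Finite A B ∧
    ∃ p : Ideal A, p.IsPrime ∧ IsRegularLocalRing (B ⧸ (p.map (algebraMap A B)).radical) ∧
      ¬ IsRegularLocalRing (A ⧸ p) := by
  refine ⟨A, B, inferInstance, inferInstance, inferInstance, inferInstance, inferInstance,
    inferInstance, inferInstance, inj, inferInstance, p, inferInstance, ?_, not_regular⟩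
  rw [rad_eq]
  infer_instance

end Pool.Agent.Results.MP_f322fd_al.MixedCharCounterexample
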